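import Pool.Agent.Lib.MP_a48b5a_co.O7Main

set_option autoImplicit false

namespace Pool.Agent.Results.MP_a48b5a_co.ElevenNinths

open Pool.Agent.Lib.MP_a48b5a_co

/-- If every edge cut of odd size has at least seven edges, then two even subgraphs of total
length at most `11 m / 9` cover all edges. -/
theorem result :
    ∀ (V E : Type) [Fintype V] [DecidableEq V] [Fintype E] [DecidableEq E]
      (s t : E → V),
      (∀ e : E, s e ≠ t e) →
      (∀ X : Finset V,
        Odd (Finset.univ.filter (fun e : E => ¬ (s e ∈ X ↔ t e ∈ X))).card →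
          7 ≤ (Finset.univ.filter (fun e : E => ¬ (s e ∈ X ↔ t e ∈ X))).card) →
      ∃ F₁ F₂ : Finset E,
        (∀ v : V, Even (Finset.card (Finset.filter (fun e => s e = v ∨ t e = v) F₁))) ∧
        (∀ v : V, Even (Finset.card (Finset.filter (fun e => s e = v ∨ t e = v) F₂))) ∧
        F₁ ∪ F₂ = Finset.univ ∧
        9 * (F₁.card + F₂.card) ≤ 11 * Fintype.card E := by
  intro V E _ _ _ _ s t hl h
  obtain ⟨P, J, h1, h2, h3, h4⟩ := O7.two_ninths (s := s) (t := t) h
  obtain ⟨F₁, F₂, a1, a2, a3, a4⟩ := cover_of_joins hl h1 h2 h3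
  exact ⟨F₁, F₂, a1, a2, a3, by omega⟩

end Pool.Agent.Results.MP_a48b5a_co.ElevenNinths
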