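import Pool.Agent.Lib.MP_a48b5a_co.F4Int

set_option autoImplicit false

namespace Pool.Agent.Results.MP_a48b5a_co.FanFourFlow

open Finset

/-- Let `C` be a circuit of a finite multigraph, with vertices `v 0, …, v (n - 1)` and edges
`c 0, …, c (n - 1)`. If the graph with `C` contracted has a nowhere-zero 4-flow, then the graph has
a 4-flow that is nonzero outside `C` and on more than three quarters of `C`. -/
theorem result (V E : Type) [Fintype V] [DecidableEq V] [Fintype E] [DecidableEq E] (s t : E → V)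
    (n : ℕ) (v : ℕ → V) (c : ℕ → E) (hn : 0 < n)
    (hv : ∀ i < n, ∀ j < n, v i = v j → i = j) (hc : ∀ i < n, ∀ j < n, c i = c j → i = j)
    (hclosed : v n = v 0)
    (hends : ∀ i < n, (s (c i) = v i ∧ t (c i) = v (i + 1)) ∨ (s (c i) = v (i + 1) ∧ t (c i) = v i))
    (g : E → ℤ) (hg : ∀ e, (∀ i < n, c i ≠ e) → g e ≠ 0 ∧ |g e| < 4)
    (hcons : ∀ p, (∀ i < n, v i ≠ p) → ∑ e with s e = p, g e = ∑ e with t e = p, g e) :
    ∃ f : E → ℤ, (∀ e, |f e| < 4) ∧ (∀ p, ∑ e with s e = p, f e = ∑ e with t e = p, f e) ∧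
      (∀ e, (∀ i < n, c i ≠ e) → f e ≠ 0) ∧
      3 * n < 4 * ((range n).filter fun i => f (c i) ≠ 0).card := by
  have h : Pool.Agent.Lib.MP_a48b5a_co.F4.Circ s t n v c := ⟨hv, hc, hclosed, hends⟩
  obtain ⟨f, h3, h4, h5⟩ := h.flow hn g hg fun p hp => by
    rw [Pool.Agent.Lib.MP_a48b5a_co.F4.net_eq, hcons p hp, sub_self]
  exact ⟨f, h3, fun p => sub_eq_zero.1 ((Pool.Agent.Lib.MP_a48b5a_co.F4.net_eq s t f p).symm.trans
    (h4 p)), h5⟩

end Pool.Agent.Results.MP_a48b5a_co.FanFourFlow
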