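import Pool.Agent.Lib.MP_a48b5a_co.U5Final

set_option autoImplicit false

namespace Pool.Agent.Results.MP_a48b5a_co.UniformGap

open Pool.Agent.Lib.MP_a48b5a_co

theorem result :
    ∀ (V E : Type) [Fintype V] [DecidableEq V] [Fintype E] [DecidableEq E]
      (s t : E → V),
      (∀ e : E, s e ≠ t e) →
      (∀ S : Finset E, S.card < 4 →
        (SimpleGraph.fromRel
          (fun u v : V => ∃ e : E, e ∉ S ∧
            ((s e = u ∧ t e = v) ∨ (s e = v ∧ t e = u)))).Connected) →
      ∃ F₁ F₂ : Finset E,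
        (∀ v : V, Even (Finset.card (Finset.filter (fun e => s e = v ∨ t e = v) F₁))) ∧
        (∀ v : V, Even (Finset.card (Finset.filter (fun e => s e = v ∨ t e = v) F₂))) ∧
        F₁ ∪ F₂ = Finset.univ ∧
        30000000000 * (F₁.card + F₂.card) ≤ 39999999997 * Fintype.card E := by
  intro V E _ _ _ _ s t hl h
  obtain ⟨P, J, h1, h2, h3, h5⟩ := U5.uniform_gap hl (cut_ge_of_connected h)
  obtain ⟨F₁, F₂, a1, a2, a3, a4⟩ := cover_of_joins hl h1 h2 h3
  exact ⟨F₁, F₂, a1, a2, a3, by omega⟩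

end Pool.Agent.Results.MP_a48b5a_co.UniformGap
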